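import Pool.Agent.Helper52_LeoC.Tcu

/-!
Module TCB of squad LEOC: existence and uniqueness of the two cubes, the real cases.
-/

set_option autoImplicit false

open Pool.Agent.LeoK Pool.Agent.LeoG

namespace Pool.Agent.LeoC.H52

lemma exists_cube_c (r : ℂ) : ∃ c : ℂ, c ^ 3 = r :=
  IsAlgClosed.exists_pow_nat_eq r (by norm_num)

lemma tc_surj (v : Q4 ℂ) (hv : mm v ≠ 0) : ∃ u : Fin 4 → ℂ, tc u = v := by
  obtain ⟨a, ha⟩ : ∃ a, v 0 = a := ⟨_, rfl⟩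
  obtain ⟨b, hb⟩ : ∃ b, v 1 = b := ⟨_, rfl⟩
  obtain ⟨c, hc⟩ : ∃ c, v 2 = c := ⟨_, rfl⟩
  obtain ⟨d, hd⟩ : ∃ d, v 3 = d := ⟨_, rfl⟩
  have hD : (b * c - 9 * a * d) ^ 2 - 4 * (b ^ 2 - 3 * a * c) * (c ^ 2 - 3 * b * d) =
      3 * mm v := by
    rw [mm, dsc, ha, hb, hc, hd]
    ring
  have hfin : ∀ u : Fin 4 → ℂ, u 0 ^ 3 + u 2 ^ 3 = a → 3 * (u 0 ^ 2 * u 1 + u 2 ^ 2 * u 3) = b →
      3 * (u 0 * u 1 ^ 2 + u 2 * u 3 ^ 2) = c → u 1 ^ 3 + u 3 ^ 3 = d → tc u = v := by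
    intro u h0 h1 h2 h3
    funext i
    fin_cases i
    · exact h0.trans ha.symm
    · exact h1.trans hb.symm
    · exact h2.trans hc.symm
    · exact h3.trans hd.symm
  have h3v : (3 : ℂ) * mm v ≠ 0 := mul_ne_zero (by norm_num) hv
  by_cases hP : b ^ 2 - 3 * a * c = 0
  · have ha0 : a ≠ 0 := by
      intro h
      rw [h] at hP hD
      have hb0 : b = 0 := by
        have : b ^ 2 = 0 := by linear_combination hP
        exact pow_eq_zero_iff (by norm_num) |>.mp this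
      rw [hb0] at hD
      exact h3v (by rw [← hD]; ring)
    obtain ⟨p, hp⟩ := exists_cube_c a
    obtain ⟨q, hq⟩ := exists_cube_c (d - b ^ 3 / (27 * a ^ 2))
    have hc' : c = b ^ 2 / (3 * a) := by
      rw [eq_div_iff (mul_ne_zero (by norm_num) ha0)]
      linear_combination -hP
    refine ⟨![p, p * (b / (3 * a)), 0, q], hfin _ ?_ ?_ ?_ ?_⟩
    · change p ^ 3 + 0 ^ 3 = a
      rw [hp]
      ring
    · change 3 * (p ^ 2 * (p * (b / (3 * a))) + 0 ^ 2 * q) = b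
      have : 3 * (p ^ 2 * (p * (b / (3 * a))) + 0 ^ 2 * q) = 3 * (p ^ 3 * (b / (3 * a))) := by ring
      rw [this, hp]
      field_simp
    · change 3 * (p * (p * (b / (3 * a))) ^ 2 + 0 * q ^ 2) = c
      have : 3 * (p * (p * (b / (3 * a))) ^ 2 + 0 * q ^ 2) = 3 * (p ^ 3 * (b / (3 * a)) ^ 2) := by
        ring
      rw [this, hp, hc']
      field_simp
    · change (p * (b / (3 * a))) ^ 3 + q ^ 3 = d
      rw [mul_pow, hp, hq]
      field_simp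
      ring
  · obtain ⟨P, hPd⟩ : ∃ P, P = b ^ 2 - 3 * a * c := ⟨_, rfl⟩
    obtain ⟨Q, hQd⟩ : ∃ Q, Q = b * c - 9 * a * d := ⟨_, rfl⟩
    obtain ⟨R, hRd⟩ : ∃ R, R = c ^ 2 - 3 * b * d := ⟨_, rfl⟩
    rw [← hPd] at hP
    obtain ⟨δ, hδ⟩ : ∃ δ : ℂ, δ ^ 2 = 3 * mm v := IsAlgClosed.exists_pow_nat_eq _ (by norm_num)
    have hδ0 : δ ≠ 0 := by
      intro h
      rw [h] at hδ
      exact h3v (by rw [← hδ]; ring)
    have hδ2 : δ ^ 2 = Q ^ 2 - 4 * P * R := by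
      rw [hδ, ← hD, hPd, hQd, hRd]
    have h2P : 2 * P ≠ 0 := mul_ne_zero (by norm_num) hP
    have h4P : 4 * P ≠ 0 := mul_ne_zero (by norm_num) hP
    obtain ⟨ρ, hρ⟩ : ∃ ρ, 2 * P * ρ = Q + δ := ⟨(Q + δ) / (2 * P), by field_simp⟩
    obtain ⟨τ, hτ⟩ : ∃ τ, 2 * P * τ = Q - δ := ⟨(Q - δ) / (2 * P), by field_simp⟩
    have hρ1 : P * ρ ^ 2 = Q * ρ - R := by
      refine mul_left_cancel₀ h4P ?_
      linear_combination (2 * P * ρ + Q + δ) * hρ - 2 * Q * hρ + hδ2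
    have hτ1 : P * τ ^ 2 = Q * τ - R := by
      refine mul_left_cancel₀ h4P ?_
      linear_combination (2 * P * τ + Q - δ) * hτ - 2 * Q * hτ + hδ2
    have hne : ρ - τ ≠ 0 := by
      intro h
      apply hδ0
      have h1 : 2 * δ = 0 := by linear_combination 2 * P * h - hρ + hτ
      have h2 : (2 : ℂ) ≠ 0 := by norm_num
      exact (mul_eq_zero.1 h1).resolve_left h2
    obtain ⟨α, hα⟩ : ∃ α, α = (b / 3 - a * τ) / (ρ - τ) := ⟨_, rfl⟩
    obtain ⟨β, hβ⟩ : ∃ β, β = (a * ρ - b / 3) / (ρ - τ) := ⟨_, rfl⟩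
    have e0 : α + β = a := by
      rw [hα, hβ]
      field_simp
      ring
    have e1 : α * ρ + β * τ = b / 3 := by
      rw [hα, hβ]
      field_simp
      ring
    have e2 : α * ρ ^ 2 + β * τ ^ 2 = c / 3 := by
      have h1 : P * (α * ρ ^ 2 + β * τ ^ 2) = P * (c / 3) := by
        calc P * (α * ρ ^ 2 + β * τ ^ 2) = α * (P * ρ ^ 2) + β * (P * τ ^ 2) := by ring
          _ = Q * (α * ρ + β * τ) - R * (α + β) := by rw [hρ1, hτ1]; ring
          _ = P * (c / 3) := by rw [e1, e0, hPd, hQd, hRd]; ring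
      exact mul_left_cancel₀ hP h1
    have e3 : α * ρ ^ 3 + β * τ ^ 3 = d := by
      have h1 : P * (α * ρ ^ 3 + β * τ ^ 3) = P * d := by
        calc P * (α * ρ ^ 3 + β * τ ^ 3) = α * ρ * (P * ρ ^ 2) + β * τ * (P * τ ^ 2) := by ring
          _ = Q * (α * ρ ^ 2 + β * τ ^ 2) - R * (α * ρ + β * τ) := by rw [hρ1, hτ1]; ring
          _ = P * d := by rw [e2, e1, hPd, hQd, hRd]; ring
      exact mul_left_cancel₀ hP h1
    obtain ⟨p, hp⟩ := exists_cube_c α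
    obtain ⟨q, hq⟩ := exists_cube_c β
    refine ⟨![p, p * ρ, q, q * τ], hfin _ ?_ ?_ ?_ ?_⟩
    · change p ^ 3 + q ^ 3 = a
      rw [hp, hq, e0]
    · change 3 * (p ^ 2 * (p * ρ) + q ^ 2 * (q * τ)) = b
      have : 3 * (p ^ 2 * (p * ρ) + q ^ 2 * (q * τ)) = 3 * (p ^ 3 * ρ + q ^ 3 * τ) := by ring
      rw [this, hp, hq, e1]
      ring
    · change 3 * (p * (p * ρ) ^ 2 + q * (q * τ) ^ 2) = c
      have : 3 * (p * (p * ρ) ^ 2 + q * (q * τ) ^ 2) = 3 * (p ^ 3 * ρ ^ 2 + q ^ 3 * τ ^ 2) := by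
        ring
      rw [this, hp, hq, e2]
      ring
    · change (p * ρ) ^ 3 + (q * τ) ^ 3 = d
      rw [mul_pow, mul_pow, hp, hq, e3]

lemma tc_exi (v : Q4 ℂ) (hv : mm v ≠ 0) : ∃ u : Fin 4 → ℂ, dc u ≠ 0 ∧ tc u = v := by
  obtain ⟨u, hu⟩ := tc_surj v hv
  refine ⟨u, fun h => hv ?_, hu⟩
  rw [← hu, mm_tc, h]
  norm_num

/-- Two linear forms with the same cube. -/
lemma cube_lin {p q p' q' : ℂ} (h0 : p ≠ 0 ∨ q ≠ 0)
    (h : ∀ X Y : ℂ, (p' * X + q' * Y) ^ 3 = (p * X + q * Y) ^ 3) :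
    ∃ a : ℂ, a ^ 3 = 1 ∧ p' = a * p ∧ q' = a * q := by
  have e1 : p' ^ 3 = p ^ 3 := by
    have := h 1 0
    simpa using this
  have e4 : q' ^ 3 = q ^ 3 := by
    have := h 0 1
    simpa using this
  have f1 := h 1 1
  have f2 := h 1 (-1)
  have e2 : p' ^ 2 * q' = p ^ 2 * q := by
    have : (6 : ℂ) * (p' ^ 2 * q') = 6 * (p ^ 2 * q) := by
      linear_combination f1 - f2 - 2 * e4
    exact mul_left_cancel₀ (by norm_num) this
  have e3 : p' * q' ^ 2 = p * q ^ 2 := by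
    have : (6 : ℂ) * (p' * q' ^ 2) = 6 * (p * q ^ 2) := by
      linear_combination f1 + f2 - 2 * e1
    exact mul_left_cancel₀ (by norm_num) this
  by_cases hp : p = 0
  · have hq : q ≠ 0 := by
      rcases h0 with h | h
      · exact absurd hp h
      · exact h
    have hp' : p' = 0 := by
      rw [hp] at e1
      have : p' ^ 3 = 0 := by rw [e1]; ring
      exact pow_eq_zero_iff (by norm_num) |>.1 this
    refine ⟨q' / q, ?_, ?_, ?_⟩
    · rw [div_pow, e4, div_self (pow_ne_zero _ hq)]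
    · rw [hp, hp', mul_zero]
    · field_simp
  · have ha : (p' / p) ^ 3 = 1 := by rw [div_pow, e1, div_self (pow_ne_zero _ hp)]
    refine ⟨p' / p, ha, ?_, ?_⟩
    · field_simp
    · have hp2 : p ^ 3 ≠ 0 := pow_ne_zero _ hp
      have h5 : q' * p ^ 3 = p' * q * p ^ 2 := by
        calc q' * p ^ 3 = q' * p' ^ 3 := by rw [e1]
          _ = p' * (p' ^ 2 * q') := by ring
          _ = p' * (p ^ 2 * q) := by rw [e2]
          _ = p' * q * p ^ 2 := by ring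
      have h6 : q' * p = p' * q := by
        refine mul_right_cancel₀ (pow_ne_zero 2 hp) ?_
        calc q' * p * p ^ 2 = q' * p ^ 3 := by ring
          _ = _ := h5
      rw [div_mul_eq_mul_div, eq_div_iff hp, h6]

lemma tc_uni (u u' : Fin 4 → ℂ) (hu : dc u ≠ 0) (h : tc u = tc u') :
    ∃ a b : ℂ, a ^ 3 = 1 ∧ b ^ 3 = 1 ∧
    (u' = ![a * u 0, a * u 1, b * u 2, b * u 3] ∨ u' = ![a * u 2, a * u 3, b * u 0, b * u 1]) := by
  have h01 : u 0 ≠ 0 ∨ u 1 ≠ 0 := by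
    by_contra hcon
    push Not at hcon
    exact hu (by rw [dc, hcon.1, hcon.2]; ring)
  have h23 : u 2 ≠ 0 ∨ u 3 ≠ 0 := by
    by_contra hcon
    push Not at hcon
    exact hu (by rw [dc, hcon.1, hcon.2]; ring)
  have hd : (dc u' ^ 3) ^ 2 = (dc u ^ 3) ^ 2 := by
    have h1 := mm_tc u
    rw [h, mm_tc] at h1
    have h2 : (27 : ℂ) ≠ 0 := by norm_num
    have h3 := mul_left_cancel₀ h2 h1
    linear_combination h3
  have hd3 : (27 * dc u ^ 3 : ℂ) ≠ 0 := mul_ne_zero (by norm_num) (pow_ne_zero _ hu)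
  have hv : ∀ X Y : ℂ, (u' 0 * X + u' 1 * Y) ^ 3 + (u' 2 * X + u' 3 * Y) ^ 3 =
      (u 0 * X + u 1 * Y) ^ 3 + (u 2 * X + u 3 * Y) ^ 3 := by
    intro X Y
    rw [← gval_tc, ← gval_tc, h]
  rcases sq_eq_sq_iff_eq_or_eq_neg.1 hd with hc | hc
  · have hw : ∀ X Y : ℂ, (u' 0 * X + u' 1 * Y) ^ 3 - (u' 2 * X + u' 3 * Y) ^ 3 =
        (u 0 * X + u 1 * Y) ^ 3 - (u 2 * X + u 3 * Y) ^ 3 := by
      intro X Y
      have h1 := gcov_tc u X Y
      rw [h, gcov_tc, hc] at h1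
      exact mul_left_cancel₀ hd3 h1
    obtain ⟨a, ha, ha0, ha1⟩ := cube_lin h01 (p' := u' 0) (q' := u' 1) fun X Y => by
      linear_combination (hv X Y + hw X Y) / 2
    obtain ⟨b, hb, hb0, hb1⟩ := cube_lin h23 (p' := u' 2) (q' := u' 3) fun X Y => by
      linear_combination (hv X Y - hw X Y) / 2
    refine ⟨a, b, ha, hb, Or.inl ?_⟩
    funext i
    fin_cases i
    · exact ha0
    · exact ha1
    · exact hb0
    · exact hb1
  · have hw : ∀ X Y : ℂ, (u' 0 * X + u' 1 * Y) ^ 3 - (u' 2 * X + u' 3 * Y) ^ 3 =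
        -((u 0 * X + u 1 * Y) ^ 3 - (u 2 * X + u 3 * Y) ^ 3) := by
      intro X Y
      have h1 := gcov_tc u X Y
      rw [h, gcov_tc, hc] at h1
      refine mul_left_cancel₀ hd3 ?_
      linear_combination -h1
    obtain ⟨a, ha, ha0, ha1⟩ := cube_lin h23 (p' := u' 0) (q' := u' 1) fun X Y => by
      linear_combination (hv X Y + hw X Y) / 2
    obtain ⟨b, hb, hb0, hb1⟩ := cube_lin h01 (p' := u' 2) (q' := u' 3) fun X Y => by
      linear_combination (hv X Y - hw X Y) / 2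
    refine ⟨a, b, ha, hb, Or.inr ?_⟩
    funext i
    fin_cases i
    · exact ha0
    · exact ha1
    · exact hb0
    · exact hb1

lemma mm_cast (v : Q4 ℝ) : mm (fun i => (v i : ℂ)) = ((mm v : ℝ) : ℂ) := by
  simp only [mm, dsc]
  push_cast
  ring

lemma tc_conj (u : Fin 4 → ℂ) (i : Fin 4) :
    tc (fun j => starRingEnd ℂ (u j)) i = starRingEnd ℂ (tc u i) := by
  fin_cases i
  · change starRingEnd ℂ (u 0) ^ 3 + starRingEnd ℂ (u 2) ^ 3 = starRingEnd ℂ (u 0 ^ 3 + u 2 ^ 3)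
    simp only [map_add, map_pow]
  · change 3 * (starRingEnd ℂ (u 0) ^ 2 * starRingEnd ℂ (u 1) +
      starRingEnd ℂ (u 2) ^ 2 * starRingEnd ℂ (u 3)) =
      starRingEnd ℂ (3 * (u 0 ^ 2 * u 1 + u 2 ^ 2 * u 3))
    simp only [map_add, map_pow, map_mul, map_ofNat]
  · change 3 * (starRingEnd ℂ (u 0) * starRingEnd ℂ (u 1) ^ 2 +
      starRingEnd ℂ (u 2) * starRingEnd ℂ (u 3) ^ 2) =
      starRingEnd ℂ (3 * (u 0 * u 1 ^ 2 + u 2 * u 3 ^ 2))
    simp only [map_add, map_pow, map_mul, map_ofNat]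
  · change starRingEnd ℂ (u 1) ^ 3 + starRingEnd ℂ (u 3) ^ 3 = starRingEnd ℂ (u 1 ^ 3 + u 3 ^ 3)
    simp only [map_add, map_pow]

lemma tc_neg_real (v : Q4 ℝ) (hv : mm v < 0) : ∃ p q : ℂ, 0 < (p * starRingEnd ℂ q).im ∧
    tc ![p, q, starRingEnd ℂ p, starRingEnd ℂ q] = fun i => (v i : ℂ) := by
  have hv0 : mm (fun i => (v i : ℂ)) ≠ 0 := by
    rw [mm_cast]
    exact_mod_cast hv.ne
  obtain ⟨u, hu, huv⟩ := tc_exi _ hv0
  have hconj : tc u = tc (fun j => starRingEnd ℂ (u j)) := by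
    funext i
    rw [tc_conj, huv]
    exact (Complex.conj_ofReal _).symm
  obtain ⟨a, b, ha, hb, hcase⟩ := tc_uni u _ hu hconj
  have hm : 27 * dc u ^ 6 = ((mm v : ℝ) : ℂ) := by
    rw [← mm_tc, huv, mm_cast]
  rcases hcase with hcase | hcase
  · exfalso
    have g0 : starRingEnd ℂ (u 0) = a * u 0 := congrFun hcase 0
    have g1 : starRingEnd ℂ (u 1) = a * u 1 := congrFun hcase 1
    have g2 : starRingEnd ℂ (u 2) = b * u 2 := congrFun hcase 2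
    have g3 : starRingEnd ℂ (u 3) = b * u 3 := congrFun hcase 3
    have g : starRingEnd ℂ (dc u ^ 3) = dc u ^ 3 := by
      have h1 : starRingEnd ℂ (dc u) = a * b * dc u := by
        rw [dc, map_sub, map_mul, map_mul, g0, g1, g2, g3]
        ring
      rw [map_pow, h1, mul_pow, mul_pow, ha, hb]
      ring
    obtain ⟨r, hr⟩ := Complex.conj_eq_iff_real.1 g
    have h2 : ((27 * r ^ 2 : ℝ) : ℂ) = ((mm v : ℝ) : ℂ) := by
      rw [← hm]
      push_cast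
      rw [← hr]
      ring
    have h3 : 27 * r ^ 2 = mm v := by exact_mod_cast h2
    nlinarith [sq_nonneg r]
  · have g0 : starRingEnd ℂ (u 0) = a * u 2 := congrFun hcase 0
    have g1 : starRingEnd ℂ (u 1) = a * u 3 := congrFun hcase 1
    have key : ∀ p q : ℂ, (p = u 0 ∧ q = u 1) ∨ (p = starRingEnd ℂ (u 0) ∧
        q = starRingEnd ℂ (u 1)) →
        tc ![p, q, starRingEnd ℂ p, starRingEnd ℂ q] = fun i => (v i : ℂ) := by
      intro p q hpq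
      rw [← huv]
      rcases hpq with ⟨rfl, rfl⟩ | ⟨rfl, rfl⟩
      · rw [g0, g1]
        funext i
        fin_cases i
        · change u 0 ^ 3 + (a * u 2) ^ 3 = u 0 ^ 3 + u 2 ^ 3
          linear_combination u 2 ^ 3 * ha
        · change 3 * (u 0 ^ 2 * u 1 + (a * u 2) ^ 2 * (a * u 3)) =
            3 * (u 0 ^ 2 * u 1 + u 2 ^ 2 * u 3)
          linear_combination 3 * u 2 ^ 2 * u 3 * ha
        · change 3 * (u 0 * u 1 ^ 2 + (a * u 2) * (a * u 3) ^ 2) =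
            3 * (u 0 * u 1 ^ 2 + u 2 * u 3 ^ 2)
          linear_combination 3 * u 2 * u 3 ^ 2 * ha
        · change u 1 ^ 3 + (a * u 3) ^ 3 = u 1 ^ 3 + u 3 ^ 3
          linear_combination u 3 ^ 3 * ha
      · rw [Complex.conj_conj, Complex.conj_conj, g0, g1]
        funext i
        fin_cases i
        · change (a * u 2) ^ 3 + u 0 ^ 3 = u 0 ^ 3 + u 2 ^ 3
          linear_combination u 2 ^ 3 * ha
        · change 3 * ((a * u 2) ^ 2 * (a * u 3) + u 0 ^ 2 * u 1) =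
            3 * (u 0 ^ 2 * u 1 + u 2 ^ 2 * u 3)
          linear_combination 3 * u 2 ^ 2 * u 3 * ha
        · change 3 * ((a * u 2) * (a * u 3) ^ 2 + u 0 * u 1 ^ 2) =
            3 * (u 0 * u 1 ^ 2 + u 2 * u 3 ^ 2)
          linear_combination 3 * u 2 * u 3 ^ 2 * ha
        · change (a * u 3) ^ 3 + u 1 ^ 3 = u 1 ^ 3 + u 3 ^ 3
          linear_combination u 3 ^ 3 * ha
    have hne : (u 0 * starRingEnd ℂ (u 1)).im ≠ 0 := by
      intro h0
      apply hu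
      have ha0 : a ≠ 0 := by
        intro h
        rw [h] at ha
        norm_num at ha
      have h1 : a * dc u = 0 := by
        have h2 : a * dc u = u 0 * starRingEnd ℂ (u 1) - starRingEnd ℂ (u 0 * starRingEnd ℂ (u 1)) := by
          rw [map_mul, Complex.conj_conj, g0, g1, dc]
          ring
        rw [h2, Complex.sub_conj, h0]
        norm_num
      exact (mul_eq_zero.1 h1).resolve_left ha0
    rcases lt_or_gt_of_ne hne with h | h
    · refine ⟨starRingEnd ℂ (u 0), starRingEnd ℂ (u 1), ?_, key _ _ (Or.inr ⟨rfl, rfl⟩)⟩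
      have h1 : starRingEnd ℂ (u 0) * starRingEnd ℂ (starRingEnd ℂ (u 1)) =
          starRingEnd ℂ (u 0 * starRingEnd ℂ (u 1)) := by rw [map_mul]
      rw [h1, Complex.conj_im]
      linarith
    · exact ⟨u 0, u 1, h, key _ _ (Or.inl ⟨rfl, rfl⟩)⟩

lemma hc_real (v : Q4 ℝ) (hv : 0 < mm v) (X Y : ℝ) : hc (fun i => (v i : ℂ)) X Y = hz v X Y := by
  obtain ⟨u, hu, rfl⟩ := Pool.Agent.LeoG.H87.thb.1 v hv
  have h1 : (fun i => ((th u i : ℝ) : ℂ)) = tc (fun i => (u i : ℂ)) := by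
    funext i
    fin_cases i
    · change ((u 0 ^ 3 + u 2 ^ 3 : ℝ) : ℂ) = (u 0 : ℂ) ^ 3 + (u 2 : ℂ) ^ 3
      push_cast
      ring
    · change ((3 * (u 0 ^ 2 * u 1 + u 2 ^ 2 * u 3) : ℝ) : ℂ) =
        3 * ((u 0 : ℂ) ^ 2 * (u 1 : ℂ) + (u 2 : ℂ) ^ 2 * (u 3 : ℂ))
      push_cast
      ring
    · change ((3 * (u 0 * u 1 ^ 2 + u 2 * u 3 ^ 2) : ℝ) : ℂ) =
        3 * ((u 0 : ℂ) * (u 1 : ℂ) ^ 2 + (u 2 : ℂ) * (u 3 : ℂ) ^ 2)
      push_cast
      ring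
    · change ((u 1 ^ 3 + u 3 ^ 3 : ℝ) : ℂ) = (u 1 : ℂ) ^ 3 + (u 3 : ℂ) ^ 3
      push_cast
      ring
  have h2 : dc (fun i => (u i : ℂ)) = ((dt u : ℝ) : ℂ) := by
    rw [dc, dt]
    push_cast
    ring
  have h3 : dc (fun i => (u i : ℂ)) ≠ 0 := by
    rw [h2]
    exact_mod_cast hu.ne'
  have h4 := hc_tc (fun i => (u i : ℂ)) h3 X Y
  rw [h1, h4, Pool.Agent.LeoG.H87.hz_th u hu.ne' X Y, h2, Complex.norm_real, Real.norm_eq_abs]
  have h5 : ‖(u 0 : ℂ) * (X : ℂ) + (u 1 : ℂ) * (Y : ℂ)‖ ^ 2 = (u 0 * X + u 1 * Y) ^ 2 := by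
    have : (u 0 : ℂ) * (X : ℂ) + (u 1 : ℂ) * (Y : ℂ) = ((u 0 * X + u 1 * Y : ℝ) : ℂ) := by
      push_cast
      ring
    rw [this, Complex.norm_real, Real.norm_eq_abs, sq_abs]
  have h6 : ‖(u 2 : ℂ) * (X : ℂ) + (u 3 : ℂ) * (Y : ℂ)‖ ^ 2 = (u 2 * X + u 3 * Y) ^ 2 := by
    have : (u 2 : ℂ) * (X : ℂ) + (u 3 : ℂ) * (Y : ℂ) = ((u 2 * X + u 3 * Y : ℝ) : ℂ) := by
      push_cast
      ring
    rw [this, Complex.norm_real, Real.norm_eq_abs, sq_abs]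
  rw [h5, h6]

/-- TCB -/
theorem tcb : TcbStmt :=
  ⟨tc_exi, tc_uni, Pool.Agent.LeoG.H87.thb.1, tc_neg_real, hc_real⟩

end Pool.Agent.LeoC.H52
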