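import Pool.Agent.LeoC.UpStmts
import Pool.Agent.Helper87_LeoG.Thu

/-!
Module TCU of squad LEOC: sums of two cubes over the complex numbers.
-/

set_option autoImplicit false

open Pool.Agent.LeoK Pool.Agent.LeoG

namespace Pool.Agent.LeoC.H52

lemma tc_0 (u : Fin 4 → ℂ) : tc u 0 = u 0 ^ 3 + u 2 ^ 3 := rfl
lemma tc_1 (u : Fin 4 → ℂ) : tc u 1 = 3 * (u 0 ^ 2 * u 1 + u 2 ^ 2 * u 3) := rfl
lemma tc_2 (u : Fin 4 → ℂ) : tc u 2 = 3 * (u 0 * u 1 ^ 2 + u 2 * u 3 ^ 2) := rfl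
lemma tc_3 (u : Fin 4 → ℂ) : tc u 3 = u 1 ^ 3 + u 3 ^ 3 := rfl

lemma mm_tc (u : Fin 4 → ℂ) : mm (tc u) = 27 * dc u ^ 6 := by
  rw [mm, dsc, tc_0, tc_1, tc_2, tc_3, dc]
  ring

lemma gval_tc (u : Fin 4 → ℂ) (X Y : ℂ) :
    gval (tc u) X Y = (u 0 * X + u 1 * Y) ^ 3 + (u 2 * X + u 3 * Y) ^ 3 := by
  rw [gval, tc_0, tc_1, tc_2, tc_3]
  ring

lemma gcov_tc (u : Fin 4 → ℂ) (X Y : ℂ) :
    gcov (tc u) X Y =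
      27 * dc u ^ 3 * ((u 0 * X + u 1 * Y) ^ 3 - (u 2 * X + u 3 * Y) ^ 3) := by
  rw [gcov, tc_0, tc_1, tc_2, tc_3, dc]
  ring

lemma norm_cube_rpow (x : ℂ) : ‖x ^ 3‖ ^ (2 / 3 : ℝ) = ‖x‖ ^ 2 := by
  rw [norm_pow, ← Real.rpow_natCast ‖x‖ 3, ← Real.rpow_mul (norm_nonneg x)]
  norm_num

lemma half_sq (x : ℂ) : (x ^ (1 / 2 : ℂ)) ^ 2 = x := by
  have h := Complex.cpow_nat_inv_pow x (n := 2) (by norm_num)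
  have h2 : ((2 : ℕ) : ℂ)⁻¹ = 1 / 2 := by norm_num
  rw [h2] at h
  exact h

lemma hc_tc (u : Fin 4 → ℂ) (hu : dc u ≠ 0) (X Y : ℂ) :
    hc (tc u) X Y = (‖u 0 * X + u 1 * Y‖ ^ 2 + ‖u 2 * X + u 3 * Y‖ ^ 2) / (2 * ‖dc u‖) := by
  have h1 : (‖mm (tc u)‖ / 27) ^ (1 / 6 : ℝ) = ‖dc u‖ := by
    rw [mm_tc]
    have h2 : ‖27 * dc u ^ 6‖ / 27 = ‖dc u‖ ^ 6 := by
      rw [norm_mul, norm_pow]
      norm_num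
    rw [h2, ← Real.rpow_natCast ‖dc u‖ 6, ← Real.rpow_mul (norm_nonneg _)]
    norm_num
  obtain ⟨s, hs⟩ : ∃ s, (27 * mm (tc u)) ^ (1 / 2 : ℂ) = s := ⟨_, rfl⟩
  have hs2 : s ^ 2 = (27 * dc u ^ 3) ^ 2 := by
    rw [← hs, half_sq, mm_tc]
    ring
  have hd3 : (27 * dc u ^ 3 : ℂ) ≠ 0 := mul_ne_zero (by norm_num) (pow_ne_zero _ hu)
  rw [hc, h1, gval_tc, gcov_tc, hs]
  obtain ⟨a, ha⟩ : ∃ a, u 0 * X + u 1 * Y = a := ⟨_, rfl⟩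
  obtain ⟨b, hb⟩ : ∃ b, u 2 * X + u 3 * Y = b := ⟨_, rfl⟩
  rw [ha, hb]
  rcases sq_eq_sq_iff_eq_or_eq_neg.1 hs2 with h | h
  · rw [h]
    have h3 : 27 * dc u ^ 3 * (a ^ 3 - b ^ 3) / (27 * dc u ^ 3) = a ^ 3 - b ^ 3 := by
      field_simp
    rw [h3]
    have h4 : (a ^ 3 + b ^ 3 + (a ^ 3 - b ^ 3)) / 2 = a ^ 3 := by ring
    have h5 : (a ^ 3 + b ^ 3 - (a ^ 3 - b ^ 3)) / 2 = b ^ 3 := by ring
    rw [h4, h5, norm_cube_rpow, norm_cube_rpow]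
  · rw [h]
    have h3 : 27 * dc u ^ 3 * (a ^ 3 - b ^ 3) / -(27 * dc u ^ 3) = b ^ 3 - a ^ 3 := by
      rw [div_neg]
      field_simp
      ring
    rw [h3]
    have h4 : (a ^ 3 + b ^ 3 + (b ^ 3 - a ^ 3)) / 2 = b ^ 3 := by ring
    have h5 : (a ^ 3 + b ^ 3 - (b ^ 3 - a ^ 3)) / 2 = a ^ 3 := by ring
    rw [h4, h5, norm_cube_rpow, norm_cube_rpow, add_comm]

/-- TCU -/
theorem tcu : TcuStmt := fun u => ⟨mm_tc u, gval_tc u, hc_tc u⟩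

end Pool.Agent.LeoC.H52
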