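import Pool.Agent.LeoC.CountStmts
import Pool.Agent.Helper90_LeoK.Usq

/-! USQ: only units `m` have `3 m` a square, and `-m` is never a square. -/

set_option autoImplicit false

open NumberField NumberField.InfinitePlace IsDedekindDomain Module
open Pool.Agent.LeoK Pool.Agent.LeoK.H90

namespace Pool.Agent.LeoC.H52

theorem three_not_unit (k : Type) [Field k] [NumberField k] : ¬ IsUnit (3 : 𝓞 k) := by
  intro h
  have h1 : IsUnit (Algebra.norm ℤ (3 : 𝓞 k)) := h.map (Algebra.norm ℤ)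
  have h2 : Algebra.norm ℤ (3 : 𝓞 k) = 3 ^ finrank ℤ (𝓞 k) := by
    have h3 := Algebra.norm_algebraMap (S := 𝓞 k) (3 : ℤ)
    simpa using h3
  rw [h2, Int.isUnit_iff] at h1
  have h4 : 0 < finrank ℤ (𝓞 k) := finrank_pos
  have h5 : (3 : ℤ) ^ 1 ≤ 3 ^ finrank ℤ (𝓞 k) := pow_le_pow_right₀ (by norm_num) h4
  rcases h1 with h1 | h1
  · rw [h1] at h5
    norm_num at h5
  · rw [h1] at h5
    norm_num at h5

theorem usq (hE : EvsStmt) : UsqStmt := by
  intro k _ _ m x hloc
  have hm0 : m ≠ 0 := by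
    rintro rfl
    obtain ⟨P, hP⟩ := Ideal.exists_maximal (𝓞 k)
    obtain ⟨p, hp⟩ := exists_prime_of_max P hP
    exact (hloc p).sqf (Ideal.zero_mem _)
  constructor
  · intro hx
    have hunit : IsUnit m := by
      by_contra hnu
      obtain ⟨P, hP, hmP⟩ := exists_max_ideal_of_mem_nonunits hnu
      obtain ⟨p, hp⟩ := exists_prime_of_max P hP
      rw [← hp] at hmP
      exact not_mem_of_loc hm0 p (hloc p) hx hmP
    have h1 := ((hE k).2.2.2.2.2.2.2.2 m hm0).2
    rw [h1, Ideal.span_singleton_eq_top.2 hunit, Ideal.absNorm_top]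
    simp
  · intro hx
    have hint : IsIntegral ℤ x := by
      refine IsIntegral.of_pow (n := 2) (by norm_num) ?_
      rw [hx]
      exact (RingOfIntegers.isIntegral_coe m).neg
    obtain ⟨y, hy⟩ : ∃ y : 𝓞 k, algebraMap (𝓞 k) k y = x := ⟨⟨x, hint⟩, rfl⟩
    have h1 : y ^ 2 + m = 0 := by
      have h2 : algebraMap (𝓞 k) k (y ^ 2 + m) = algebraMap (𝓞 k) k 0 := by
        rw [map_add, map_pow, hy, hx, map_zero]
        exact neg_add_cancel _
      exact RingOfIntegers.coe_injective h2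
    obtain ⟨P, hP, h3P⟩ := exists_max_ideal_of_mem_nonunits (three_not_unit k)
    obtain ⟨p, hp⟩ := exists_prime_of_max P hP
    rw [← hp] at h3P
    refine (hloc p).three h3P y ?_
    rw [h1]
    exact Ideal.zero_mem _

end Pool.Agent.LeoC.H52
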